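import Pool.Agent.helper92.VT.Spec

/-!
# Row vt:NTC (MP_dc9173_lc): from networks of polynomials to networks of tensors
-/

universe u

namespace Pool.Agent.helper92.VT

open MvPolynomial Pool.Agent.helper92.VC

/-- the tensors of a network depend only on the leaves -/
theorem NTC_dep {ι : Type} {K : Type u} [CommRing K] {w : ℕ} (t : Tr ι) :
    ∀ Q : Fin w → (ι → ℕ) → K, TNet K w t Q → ∀ s (e e' : ι → ℕ), (∀ x ∈ t.leaves, e x = e' x) →
    Q s e = Q s e' := by
  induction t with
  | leaf x =>
    intro Q hQ s e e' h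
    obtain ⟨p, hp⟩ := hQ s
    rw [hp]
    have h1 : e x = e' x := h x (by simp [Tr.leaves])
    simp only [h1]
  | node a b iha ihb =>
    intro Q hQ s e e' h
    obtain ⟨Qa, Qb, ha, hb, q, hq⟩ := hQ
    rw [hq s]
    refine Finset.sum_congr rfl fun i _ => Finset.sum_congr rfl fun j _ => ?_
    rw [iha Qa ha i e e' (fun x hx => h x (by simp [Tr.leaves, hx])),
      ihb Qb hb j e e' (fun x hx => h x (by simp [Tr.leaves, hx]))]

/-- coefficients of a univariate polynomial in one variable -/
theorem NTC_leaf {n : ℕ} {K : Type u} [Field K] (x : Fin n) (p : Polynomial K) (e : Fin n →₀ ℕ) :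
    MvPolynomial.coeff e (Polynomial.aeval (X x : MvPolynomial (Fin n) K) p) =
      if ∀ y, y ≠ x → e y = 0 then p.coeff (e x) else 0 := by
  rw [Polynomial.aeval_eq_sum_range, MvPolynomial.coeff_sum]
  simp only [MvPolynomial.coeff_smul, MvPolynomial.coeff_X_pow, smul_eq_mul, mul_ite, mul_one, mul_zero]
  split_ifs with h
  · have h1 : ∀ i, Finsupp.single x i = e ↔ i = e x := by
      intro i
      constructor
      · intro h2
        rw [← h2, Finsupp.single_eq_same]
      · rintro rfl
        ext y
        by_cases hy : y = x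
        · rw [hy, Finsupp.single_eq_same]
        · rw [h y hy, Finsupp.single_eq_of_ne hy]
    simp only [h1]
    rw [Finset.sum_ite_eq']
    split_ifs with h2
    · rfl
    · rw [Polynomial.coeff_eq_zero_of_natDegree_lt]
      rw [Finset.mem_range] at h2
      omega
  · refine Finset.sum_eq_zero fun i _ => if_neg ?_
    rintro rfl
    exact h fun y hy => Finsupp.single_eq_of_ne hy

/-- coefficients of a product of polynomials in disjoint sets of variables -/
theorem NTC_mul {n : ℕ} {K : Type u} [Field K] (la lb : List (Fin n)) (hd : ∀ x ∈ la, x ∉ lb)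
    (A B : MvPolynomial (Fin n) K) (QA QB : (Fin n → ℕ) → K)
    (hA : ∀ e : Fin n →₀ ℕ, coeff e A = if ∀ y, y ∉ la → e y = 0 then QA (fun x => e x) else 0)
    (hB : ∀ e : Fin n →₀ ℕ, coeff e B = if ∀ y, y ∉ lb → e y = 0 then QB (fun x => e x) else 0)
    (dA : ∀ e e' : Fin n → ℕ, (∀ x ∈ la, e x = e' x) → QA e = QA e')
    (dB : ∀ e e' : Fin n → ℕ, (∀ x ∈ lb, e x = e' x) → QB e = QB e') (e : Fin n →₀ ℕ) :
    coeff e (A * B) = if ∀ y, y ∉ la ++ lb → e y = 0 then QA (fun x => e x) * QB (fun x => e x) else 0 := by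
  rw [MvPolynomial.coeff_mul]
  split_ifs with h
  · rw [Finset.sum_eq_single (Finsupp.filter (· ∈ la) e, Finsupp.filter (fun x => ¬ x ∈ la) e)]
    · rw [hA, hB, if_pos, if_pos]
      · congr 1
        · apply dA
          intro x hx
          exact Finsupp.filter_apply_pos _ _ hx
        · apply dB
          intro x hx
          exact Finsupp.filter_apply_pos _ _ (fun h2 => hd x h2 hx)
      · intro y hy
        by_cases hya : y ∈ la
        · exact Finsupp.filter_apply_neg (fun x => ¬ x ∈ la) e (fun h3 => h3 hya)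
        · rw [Finsupp.filter_apply_pos (fun x => ¬ x ∈ la) e hya]
          apply h
          rw [List.mem_append]
          tauto
      · intro y hy
        exact Finsupp.filter_apply_neg _ _ hy
    · rintro ⟨e1, e2⟩ h1 h2
      rw [Finset.HasAntidiagonal.mem_antidiagonal] at h1
      by_contra h3
      have h4 : ∀ y, y ∉ la → e1 y = 0 := by
        by_contra h5
        apply h3
        rw [hA, if_neg h5, zero_mul]
      have h6 : ∀ y, y ∉ lb → e2 y = 0 := by
        by_contra h5
        apply h3
        rw [hB, if_neg h5, mul_zero]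
      apply h2
      simp only at h1 h4 h6
      have h7 : e1 = Finsupp.filter (· ∈ la) e := by
        ext y
        by_cases hya : y ∈ la
        · rw [Finsupp.filter_apply_pos _ _ hya, ← h1, Finsupp.add_apply, h6 y (hd y hya), add_zero]
        · rw [Finsupp.filter_apply_neg _ _ hya, h4 y hya]
      have h8 : e2 = Finsupp.filter (fun x => ¬ x ∈ la) e := by
        ext y
        by_cases hya : y ∈ la
        · rw [Finsupp.filter_apply_neg (fun x => ¬ x ∈ la) e (fun h3 => h3 hya), h6 y (hd y hya)]
        · rw [Finsupp.filter_apply_pos (fun x => ¬ x ∈ la) e hya, ← h1, Finsupp.add_apply, h4 y hya, zero_add]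
      rw [← h7, ← h8]
    · intro h1
      exfalso
      apply h1
      rw [Finset.HasAntidiagonal.mem_antidiagonal]
      exact Finsupp.filter_add_filter_not e _
  · refine Finset.sum_eq_zero ?_
    rintro ⟨e1, e2⟩ h1
    rw [Finset.HasAntidiagonal.mem_antidiagonal] at h1
    by_contra h3
    have h4 : ∀ y, y ∉ la → e1 y = 0 := by
      by_contra h5
      apply h3
      rw [hA, if_neg h5, zero_mul]
    have h6 : ∀ y, y ∉ lb → e2 y = 0 := by
      by_contra h5
      apply h3
      rw [hB, if_neg h5, mul_zero]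
    apply h
    intro y hy
    rw [List.mem_append, not_or] at hy
    simp only at h1
    rw [← h1, Finsupp.add_apply, h4 y hy.1, h6 y hy.2]

theorem NTC : NTC_stmt.{u} := by
  intro n K _ w t
  induction t with
  | leaf x =>
    intro _ P hP
    choose p hp using hP
    refine ⟨fun s e => (p s).coeff (e x), fun s => ⟨fun i => (p s).coeff i, rfl⟩, ?_⟩
    intro s e
    rw [hp s, NTC_leaf]
    simp only [Tr.leaves, List.mem_singleton]
  | node a b iha ihb =>
    intro hnd P hP
    obtain ⟨Pa, Pb, ha, hb, q, hq⟩ := hP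
    simp only [Tr.leaves] at hnd
    rw [List.nodup_append] at hnd
    obtain ⟨na, nb, hd⟩ := hnd
    obtain ⟨Qa, hQa, hca⟩ := iha na Pa ha
    obtain ⟨Qb, hQb, hcb⟩ := ihb nb Pb hb
    refine ⟨fun s e => ∑ i, ∑ j, q s i j * (Qa i e * Qb j e), ⟨Qa, Qb, hQa, hQb, q, fun s => rfl⟩, ?_⟩
    intro s e
    rw [hq s, MvPolynomial.coeff_sum]
    simp only [MvPolynomial.coeff_sum, MvPolynomial.coeff_C_mul]
    have key : ∀ i j, coeff e (Pa i * Pb j) =
        if ∀ y, y ∉ a.leaves ++ b.leaves → e y = 0 then Qa i (fun x => e x) * Qb j (fun x => e x) else 0 := by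
      intro i j
      exact NTC_mul a.leaves b.leaves (fun x hx hx' => hd x hx x hx' rfl) (Pa i) (Pb j) (Qa i) (Qb j)
        (hca i) (hcb j) (NTC_dep a Qa hQa i) (NTC_dep b Qb hQb j) e
    simp only [key]
    simp only [Tr.leaves]
    split_ifs with h
    · rfl
    · simp

end Pool.Agent.helper92.VT
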